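import Mathlib

/-! Norm bounds for the Toeplitz matrices. -/

namespace R243.TM

/-- real quadratic form bound, 3 by 3 -/
theorem quad3_real {s0 s1 s2 K : ℝ} (h1 : (s0 - s2) ^ 2 ≤ K)
    (h2 : 0 < K - (s0 + s2) ^ 2 - 2 * s1 ^ 2)
    (h3 : (2 * s1 * (2 * s0 + s2)) ^ 2 ≤
      (2 * (K - (s0 + s2) ^ 2 - 2 * s1 ^ 2)) * (K - 2 * s1 ^ 2 - s0 ^ 2)) (u v w : ℝ) :
    (s0 * u + s1 * v + s2 * w) ^ 2 + (s1 * u + s0 * v + s1 * w) ^ 2 +
      (s2 * u + s1 * v + s0 * w) ^ 2 ≤ K * (u ^ 2 + v ^ 2 + w ^ 2) := by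
  set p := (u + w) / 2 with hp
  set q := (u - w) / 2 with hq
  set α := 2 * (K - (s0 + s2) ^ 2 - 2 * s1 ^ 2) with hα
  set γ := K - 2 * s1 ^ 2 - s0 ^ 2 with hγ
  set β := 2 * s1 * (2 * s0 + s2) with hβ
  have hαpos : 0 < α := by rw [hα]; linarith
  have key : 0 ≤ α * p ^ 2 - 2 * β * (p * v) + γ * v ^ 2 := by
    have h4 : 0 ≤ α * (α * p ^ 2 - 2 * β * (p * v) + γ * v ^ 2) := by
      have : α * (α * p ^ 2 - 2 * β * (p * v) + γ * v ^ 2) =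
        (α * p - β * v) ^ 2 + (α * γ - β ^ 2) * v ^ 2 := by ring
      rw [this]
      have h5 : 0 ≤ α * γ - β ^ 2 := by linarith
      positivity
    exact nonneg_of_mul_nonneg_right h4 hαpos
  have hu : u = p + q := by rw [hp, hq]; ring
  have hw : w = p - q := by rw [hp, hq]; ring
  have e1 : K * (u ^ 2 + v ^ 2 + w ^ 2) - ((s0 * u + s1 * v + s2 * w) ^ 2 +
      (s1 * u + s0 * v + s1 * w) ^ 2 + (s2 * u + s1 * v + s0 * w) ^ 2) =
      2 * q ^ 2 * (K - (s0 - s2) ^ 2) + (α * p ^ 2 - 2 * β * (p * v) + γ * v ^ 2) := by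
    rw [hu, hw, hα, hβ, hγ]; ring
  have h6 : 0 ≤ 2 * q ^ 2 * (K - (s0 - s2) ^ 2) := by
    have : 0 ≤ K - (s0 - s2) ^ 2 := by linarith
    positivity
  linarith

theorem norm_sq_re_im (z : ℂ) : ‖z‖ ^ 2 = z.re ^ 2 + z.im ^ 2 := by
  rw [← Complex.normSq_eq_norm_sq, Complex.normSq_apply]; ring

theorem quad3 {s0 s1 s2 K : ℝ} (h : ∀ u v w : ℝ,
    (s0 * u + s1 * v + s2 * w) ^ 2 + (s1 * u + s0 * v + s1 * w) ^ 2 +
      (s2 * u + s1 * v + s0 * w) ^ 2 ≤ K * (u ^ 2 + v ^ 2 + w ^ 2)) (u v w : ℂ) :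
    ‖s0 * u + s1 * v + s2 * w‖ ^ 2 + ‖s1 * u + s0 * v + s1 * w‖ ^ 2 +
      ‖s2 * u + s1 * v + s0 * w‖ ^ 2 ≤ K * (‖u‖ ^ 2 + ‖v‖ ^ 2 + ‖w‖ ^ 2) := by
  have h1 := h u.re v.re w.re
  have h2 := h u.im v.im w.im
  simp only [norm_sq_re_im, Complex.add_re, Complex.add_im, Complex.re_ofReal_mul,
    Complex.im_ofReal_mul]
  linarith

/-- the coefficient sequence supported on `0, ±m, ±2m` -/
noncomputable def b3 (s0 s1 s2 : ℝ) (m : ℕ) (n : ℤ) : ℝ :=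
  if n = 0 then s0 else if n = m ∨ n = -m then s1 else if n = 2 * m ∨ n = -(2 * m) then s2 else 0

theorem sum_range_three (m : ℕ) {M : Type*} [AddCommMonoid M] (f : ℕ → M) :
    ∑ j ∈ Finset.range (3 * m), f j =
      ∑ r ∈ Finset.range m, (f r + f (m + r) + f (2 * m + r)) := by
  have : 3 * m = m + m + m := by ring
  rw [this, Finset.sum_range_add, Finset.sum_range_add, Finset.sum_add_distrib,
    Finset.sum_add_distrib]
  congr 2
  funext x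
  congr 1
  ring

theorem b3_off {s0 s1 s2 : ℝ} {m : ℕ} {n : ℤ} (h0 : n ≠ 0) (h1 : n ≠ m) (h2 : n ≠ -m)
    (h3 : n ≠ 2 * m) (h4 : n ≠ -(2 * m)) : b3 s0 s1 s2 m n = 0 := by
  unfold b3
  simp [h0, h1, h2, h3, h4]

theorem b3_neg {s0 s1 s2 : ℝ} {m : ℕ} (n : ℤ) : b3 s0 s1 s2 m (-n) = b3 s0 s1 s2 m n := by
  unfold b3
  have e0 : (-n = 0) ↔ (n = 0) := by omega
  have e1 : (-n = (m : ℤ) ∨ -n = -(m : ℤ)) ↔ (n = m ∨ n = -m) := by omega
  have e2 : (-n = 2 * (m : ℤ) ∨ -n = -(2 * (m : ℤ))) ↔ (n = 2 * m ∨ n = -(2 * m)) := by omega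
  simp only [e0, e1, e2]

theorem b3_zero {s0 s1 s2 : ℝ} {m : ℕ} : b3 s0 s1 s2 m 0 = s0 := by simp [b3]

theorem b3_m {s0 s1 s2 : ℝ} {m : ℕ} (hm : 0 < m) : b3 s0 s1 s2 m m = s1 := by
  unfold b3
  have : (m : ℤ) ≠ 0 := by exact_mod_cast hm.ne'
  simp only [this, if_false, true_or, if_true]

theorem b3_2m {s0 s1 s2 : ℝ} {m : ℕ} (hm : 0 < m) : b3 s0 s1 s2 m (2 * m) = s2 := by
  unfold b3
  have h0 : (2 * (m : ℤ)) ≠ 0 := by omega
  have h1 : ¬ (2 * (m : ℤ) = m ∨ 2 * (m : ℤ) = -m) := by omega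
  simp only [h0, h1, if_false, true_or, if_true]

/-- the sum over one block -/
theorem row {s0 s1 s2 : ℝ} {m : ℕ} (X : ℕ → ℂ) (j : ℕ) (r t : ℕ) (hr : r < m)
    (hj : j = r + m * t) :
    ∑ k ∈ Finset.range (3 * m), ((b3 s0 s1 s2 m ((j : ℤ) - (k : ℤ)) : ℝ) : ℂ) * X k =
      ((b3 s0 s1 s2 m ((m : ℤ) * t) : ℝ) : ℂ) * X r +
      ((b3 s0 s1 s2 m ((m : ℤ) * (t - 1)) : ℝ) : ℂ) * X (m + r) +
      ((b3 s0 s1 s2 m ((m : ℤ) * (t - 2)) : ℝ) : ℂ) * X (2 * m + r) := by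
  rw [sum_range_three, Finset.sum_eq_single r]
  · subst hj
    push_cast
    congr 3
    · congr 3; ring
    · congr 3; ring
    · congr 1; ring
  · intro q hq hqr
    have hq' := Finset.mem_range.mp hq
    have hne : ∀ i : ℕ, i < 3 → b3 s0 s1 s2 m ((j : ℤ) - ((i * m + q : ℕ) : ℤ)) = 0 := by
      intro i hi
      have key : ∀ c : ℤ, (j : ℤ) - ((i * m + q : ℕ) : ℤ) ≠ c * m := by
        intro c hc
        rw [hj] at hc
        push_cast at hc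
        have h1 : (r : ℤ) - q = (c + i - t) * m := by linarith
        have h2 : |(r : ℤ) - q| < m := by
          rw [abs_lt]; constructor <;> omega
        have h3 : (c + i - t : ℤ) = 0 := by
          by_contra h4
          have h5 : 1 ≤ |(c + i - t : ℤ)| := Int.one_le_abs h4
          rw [h1, abs_mul] at h2
          have h6 : |(m : ℤ)| = m := abs_of_nonneg (by positivity)
          rw [h6] at h2
          nlinarith
        rw [h3, zero_mul] at h1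
        apply hqr
        omega
      apply b3_off
      · have := key 0; simpa using this
      · have := key 1; simpa using this
      · have := key (-1); simpa using this
      · exact key 2
      · have := key (-2); simpa using this
    have h0 := hne 0 (by norm_num)
    have h1 := hne 1 (by norm_num)
    have h2 := hne 2 (by norm_num)
    rw [zero_mul, zero_add] at h0
    rw [one_mul] at h1
    rw [h0, h1, h2]
    simp
  · intro h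
    exact absurd (Finset.mem_range.mpr hr) h

theorem row0 {s0 s1 s2 : ℝ} {m : ℕ} (X : ℕ → ℂ) (r : ℕ) (hr : r < m) :
    ∑ k ∈ Finset.range (3 * m), ((b3 s0 s1 s2 m ((r : ℤ) - (k : ℤ)) : ℝ) : ℂ) * X k =
      s0 * X r + s1 * X (m + r) + s2 * X (2 * m + r) := by
  have hm : 0 < m := by omega
  have e1 : b3 s0 s1 s2 m (-(m : ℤ)) = s1 := by rw [b3_neg, b3_m hm]
  have e2 : b3 s0 s1 s2 m (-(2 * (m : ℤ))) = s2 := by rw [b3_neg, b3_2m hm]
  rw [row X r r 0 hr (by ring)]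
  have f0 : (m : ℤ) * ((0 : ℕ) : ℤ) = 0 := by push_cast; ring
  have f1 : (m : ℤ) * (((0 : ℕ) : ℤ) - 1) = -m := by push_cast; ring
  have f2 : (m : ℤ) * (((0 : ℕ) : ℤ) - 2) = -(2 * m) := by push_cast; ring
  rw [f0, f1, f2, b3_zero, e1, e2]

theorem row1 {s0 s1 s2 : ℝ} {m : ℕ} (X : ℕ → ℂ) (r : ℕ) (hr : r < m) :
    ∑ k ∈ Finset.range (3 * m), ((b3 s0 s1 s2 m (((m + r : ℕ) : ℤ) - (k : ℤ)) : ℝ) : ℂ) * X k =
      s1 * X r + s0 * X (m + r) + s1 * X (2 * m + r) := by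
  have hm : 0 < m := by omega
  have e1 : b3 s0 s1 s2 m (-(m : ℤ)) = s1 := by rw [b3_neg, b3_m hm]
  rw [row X (m + r) r 1 hr (by ring)]
  have f0 : (m : ℤ) * ((1 : ℕ) : ℤ) = m := by push_cast; ring
  have f1 : (m : ℤ) * (((1 : ℕ) : ℤ) - 1) = 0 := by push_cast; ring
  have f2 : (m : ℤ) * (((1 : ℕ) : ℤ) - 2) = -m := by push_cast; ring
  rw [f0, f1, f2, b3_zero, e1, b3_m hm]

theorem row2 {s0 s1 s2 : ℝ} {m : ℕ} (X : ℕ → ℂ) (r : ℕ) (hr : r < m) :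
    ∑ k ∈ Finset.range (3 * m), ((b3 s0 s1 s2 m (((2 * m + r : ℕ) : ℤ) - (k : ℤ)) : ℝ) : ℂ) * X k =
      s2 * X r + s1 * X (m + r) + s0 * X (2 * m + r) := by
  have hm : 0 < m := by omega
  rw [row X (2 * m + r) r 2 hr (by ring)]
  have f0 : (m : ℤ) * ((2 : ℕ) : ℤ) = 2 * m := by push_cast; ring
  have f1 : (m : ℤ) * (((2 : ℕ) : ℤ) - 1) = m := by push_cast; ring
  have f2 : (m : ℤ) * (((2 : ℕ) : ℤ) - 2) = 0 := by push_cast; ring
  rw [f0, f1, f2, b3_zero, b3_m hm, b3_2m hm]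

/-- the norm bound on sequences -/
theorem seq_bound {s0 s1 s2 K : ℝ} (h : ∀ u v w : ℝ,
    (s0 * u + s1 * v + s2 * w) ^ 2 + (s1 * u + s0 * v + s1 * w) ^ 2 +
      (s2 * u + s1 * v + s0 * w) ^ 2 ≤ K * (u ^ 2 + v ^ 2 + w ^ 2)) {m : ℕ} (X : ℕ → ℂ) :
    ∑ j ∈ Finset.range (3 * m), ‖∑ k ∈ Finset.range (3 * m),
      ((b3 s0 s1 s2 m ((j : ℤ) - (k : ℤ)) : ℝ) : ℂ) * X k‖ ^ 2 ≤
      K * ∑ j ∈ Finset.range (3 * m), ‖X j‖ ^ 2 := by
  rw [sum_range_three, sum_range_three m fun j => ‖X j‖ ^ 2, Finset.mul_sum]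
  apply Finset.sum_le_sum
  intro r hr
  have hr' := Finset.mem_range.mp hr
  rw [row0 X r hr', row1 X r hr', row2 X r hr']
  exact quad3 h _ _ _

/-- the truncated norm bound -/
theorem fin_bound {s0 s1 s2 K : ℝ} (h : ∀ u v w : ℝ,
    (s0 * u + s1 * v + s2 * w) ^ 2 + (s1 * u + s0 * v + s1 * w) ^ 2 +
      (s2 * u + s1 * v + s0 * w) ^ 2 ≤ K * (u ^ 2 + v ^ 2 + w ^ 2)) {m N : ℕ}
    (hN : N + 1 ≤ 3 * m) (x : Fin (N + 1) → ℂ) :
    ∑ j : Fin (N + 1), ‖∑ k : Fin (N + 1),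
      ((b3 s0 s1 s2 m (((j : ℕ) : ℤ) - ((k : ℕ) : ℤ)) : ℝ) : ℂ) * x k‖ ^ 2 ≤
      K * ∑ j : Fin (N + 1), ‖x j‖ ^ 2 := by
  set X : ℕ → ℂ := fun j => if hj : j < N + 1 then x ⟨j, hj⟩ else 0 with hX
  have hXx : ∀ j : Fin (N + 1), X j = x j := by
    intro j; rw [hX]; simp [j.2]
  have hX0 : ∀ j, N + 1 ≤ j → X j = 0 := by
    intro j hj; rw [hX]; simp [not_lt.mpr hj]
  have hsub : Finset.range (N + 1) ⊆ Finset.range (3 * m) := Finset.range_subset_range.mpr hN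
  have e1 : ∑ j : Fin (N + 1), ‖x j‖ ^ 2 = ∑ j ∈ Finset.range (3 * m), ‖X j‖ ^ 2 := by
    rw [← Finset.sum_subset hsub, Finset.sum_range]
    · apply Finset.sum_congr rfl
      intro j _; rw [hXx]
    · intro j _ hj
      rw [Finset.mem_range, not_lt] at hj
      rw [hX0 j hj]; simp
  have e2 : ∀ j : ℕ, ∑ k : Fin (N + 1), ((b3 s0 s1 s2 m ((j : ℤ) - ((k : ℕ) : ℤ)) : ℝ) : ℂ) * x k =
      ∑ k ∈ Finset.range (3 * m), ((b3 s0 s1 s2 m ((j : ℤ) - (k : ℤ)) : ℝ) : ℂ) * X k := by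
    intro j
    rw [← Finset.sum_subset hsub, Finset.sum_range]
    · apply Finset.sum_congr rfl
      intro k _; rw [hXx]
    · intro k _ hk
      rw [Finset.mem_range, not_lt] at hk
      rw [hX0 k hk]; simp
  rw [e1]
  refine le_trans ?_ (seq_bound h X)
  rw [← Finset.sum_range fun j : ℕ => ‖∑ k : Fin (N + 1),
      ((b3 s0 s1 s2 m ((j : ℤ) - ((k : ℕ) : ℤ)) : ℝ) : ℂ) * x k‖ ^ 2]
  refine le_trans (Finset.sum_le_sum_of_subset_of_nonneg hsub fun j _ _ => sq_nonneg _) ?_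
  apply Finset.sum_le_sum
  intro j _
  rw [e2]

end R243.TM
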