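import Mathlib
import Pool.Agent.R243.TM.Norm

/-! Duality and the `L¹` norms. -/

namespace R243.TM

open MeasureTheory AddCircle Real

theorem dual {f : UnitAddCircle → ℂ} (hf : MemLp f ⊤ haarAddCircle) {G : UnitAddCircle → ℂ}
    (hGc : Continuous G) {V : ℝ} (hV : 0 < V) (hG : ∫ t, ‖G t‖ ∂haarAddCircle ≤ V)
    (hfG : ∫ t, G t * f t ∂haarAddCircle = (V : ℂ)) : 1 ≤ eLpNorm f ⊤ haarAddCircle := by
  by_contra hcon
  push Not at hcon
  set B := (eLpNorm f ⊤ haarAddCircle).toReal with hB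
  have hfin : eLpNorm f ⊤ haarAddCircle ≠ ⊤ := hf.2.ne
  have hB1 : B < 1 := by
    calc B < (1 : ENNReal).toReal := (ENNReal.toReal_lt_toReal hfin ENNReal.one_ne_top).mpr hcon
      _ = 1 := ENNReal.toReal_one
  have hB0 : 0 ≤ B := ENNReal.toReal_nonneg
  have hae : ∀ᵐ t ∂haarAddCircle, ‖f t‖ ≤ B := by
    have h1 := ae_le_eLpNormEssSup (f := f) (μ := haarAddCircle)
    filter_upwards [h1] with t ht
    rw [← eLpNorm_exponent_top] at ht
    rw [hB, ← toReal_enorm]
    exact ENNReal.toReal_mono hfin ht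
  have hGint : Integrable (fun t => ‖G t‖) haarAddCircle := by
    have : Integrable G haarAddCircle := hGc.integrable_of_hasCompactSupport
      (HasCompactSupport.of_compactSpace G)
    exact this.norm
  have h2 : V ≤ ∫ t, ‖G t‖ * B ∂haarAddCircle := by
    calc V = ‖∫ t, G t * f t ∂haarAddCircle‖ := by
          rw [hfG, Complex.norm_real, Real.norm_of_nonneg hV.le]
      _ ≤ ∫ t, ‖G t‖ * B ∂haarAddCircle := by
          apply norm_integral_le_of_norm_le (hGint.mul_const B)
          filter_upwards [hae] with t ht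
          rw [norm_mul]
          exact mul_le_mul_of_nonneg_left ht (norm_nonneg _)
  rw [integral_mul_const] at h2
  nlinarith [mul_le_mul_of_nonneg_right hG hB0]

theorem int_circle {g : ℝ → ℝ} (hg : Continuous g) (hper : ∀ x, g (x + 2 * π) = g x)
    (heven : ∀ x, g (-x) = g x) {m : ℕ} (hm : 0 < m) {G : UnitAddCircle → ℂ}
    (hG : ∀ x : ℝ, ‖G (x : UnitAddCircle)‖ = |g (2 * π * m * x)|) :
    ∫ t, ‖G t‖ ∂haarAddCircle = (1 / π) * ∫ u in (0 : ℝ)..π, |g u| := by
  have habs : Continuous fun u => |g u| := hg.abs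
  have hP : Function.Periodic (fun u => |g u|) (2 * π) := fun x => by simp only [hper]
  rw [integral_haarAddCircle, inv_one, one_smul,
    ← UnitAddCircle.intervalIntegral_preimage 0, zero_add]
  have h1 : ∫ x in (0 : ℝ)..1, ‖G (x : UnitAddCircle)‖ = ∫ x in (0 : ℝ)..1, |g (2 * π * m * x)| := by
    apply intervalIntegral.integral_congr
    intro x _
    exact hG x
  have hc : (2 * π * m : ℝ) ≠ 0 := by
    have : (m : ℝ) ≠ 0 := by exact_mod_cast hm.ne'
    have := Real.pi_pos
    positivity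
  rw [h1, intervalIntegral.integral_comp_mul_left (fun u => |g u|) hc, mul_zero, mul_one]
  have h2 : ∫ u in (0 : ℝ)..(2 * π * m), |g u| = m * ∫ u in (0 : ℝ)..(2 * π), |g u| := by
    have := hP.intervalIntegral_add_zsmul_eq (m : ℤ) 0 fun t₁ t₂ => habs.intervalIntegrable _ _
    simp only [zero_add] at this
    rw [zsmul_eq_mul, zsmul_eq_mul] at this
    rw [show (2 * π * m : ℝ) = ((m : ℤ) : ℝ) * (2 * π) by push_cast; ring]
    rw [this]
    push_cast
    rfl
  have h3 : ∫ u in (0 : ℝ)..(2 * π), |g u| = 2 * ∫ u in (0 : ℝ)..π, |g u| := by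
    rw [← intervalIntegral.integral_add_adjacent_intervals (b := π)
      (habs.intervalIntegrable _ _) (habs.intervalIntegrable _ _)]
    have h4 : ∫ u in π..(2 * π), |g u| = ∫ u in (0 : ℝ)..π, |g u| := by
      have h5 := intervalIntegral.integral_comp_sub_left (a := 0) (b := π) (fun u => |g u|) (2 * π)
      rw [show 2 * π - π = π by ring, sub_zero] at h5
      rw [← h5]
      apply intervalIntegral.integral_congr
      intro x _
      simp only
      rw [show 2 * π - x = -x + 2 * π by ring, hper, heven]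
    rw [h4]; ring
  rw [h2, h3, smul_eq_mul]
  have hpi := Real.pi_ne_zero
  have hm' : (m : ℝ) ≠ 0 := by exact_mod_cast hm.ne'
  field_simp

theorem piece_pos {g Γ : ℝ → ℝ} (hder : ∀ x, HasDerivAt Γ (g x) x) (hg : Continuous g) {a b : ℝ}
    (hab : a ≤ b) (h : ∀ x ∈ Set.Icc a b, 0 ≤ g x) : ∫ x in a..b, |g x| = Γ b - Γ a := by
  rw [← intervalIntegral.integral_eq_sub_of_hasDerivAt (f := Γ) (f' := g)
    (fun x _ => hder x) (hg.intervalIntegrable _ _)]
  apply intervalIntegral.integral_congr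
  intro x hx
  rw [Set.uIcc_of_le hab] at hx
  exact abs_of_nonneg (h x hx)

theorem piece_neg {g Γ : ℝ → ℝ} (hder : ∀ x, HasDerivAt Γ (g x) x) (hg : Continuous g) {a b : ℝ}
    (hab : a ≤ b) (h : ∀ x ∈ Set.Icc a b, g x ≤ 0) : ∫ x in a..b, |g x| = Γ a - Γ b := by
  have := piece_pos (g := fun x => -g x) (Γ := fun x => -Γ x) (fun x => (hder x).neg) hg.neg hab
    (fun x hx => by have := h x hx; linarith)
  simp only [abs_neg] at this
  rw [this]; ring

/-- the cosine polynomial of degree two -/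
noncomputable def g2 (p q r : ℝ) (u : ℝ) : ℝ := p + q * cos u + r * cos (2 * u)

theorem g2_factor (α β u : ℝ) :
    g2 (1 / 2 + cos α * cos β) (-(cos α + cos β)) (1 / 2) u =
      (cos u - cos α) * (cos u - cos β) := by
  unfold g2
  rw [cos_two_mul]; ring

theorem g2_cont (p q r : ℝ) : Continuous (g2 p q r) := by
  unfold g2; fun_prop

theorem g2_der (p q r x : ℝ) :
    HasDerivAt (fun u => p * u + q * sin u + r / 2 * sin (2 * u)) (g2 p q r x) x := by
  have h1 : HasDerivAt (fun u : ℝ => p * u) p x := by simpa using (hasDerivAt_id x).const_mul p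
  have h2 : HasDerivAt (fun u : ℝ => q * sin u) (q * cos x) x := (hasDerivAt_sin x).const_mul q
  have h3 : HasDerivAt (fun u : ℝ => r / 2 * sin (2 * u)) (r / 2 * (cos (2 * x) * 2)) x := by
    have h4 : HasDerivAt (fun u : ℝ => 2 * u) 2 x := by
      simpa using (hasDerivAt_id x).const_mul (2 : ℝ)
    exact ((hasDerivAt_sin (2 * x)).comp x h4).const_mul (r / 2)
  exact ((h1.add h2).add h3).congr_deriv (show _ = g2 p q r x by unfold g2; ring)

theorem int_g2 {α β : ℝ} (h0 : 0 ≤ α) (hαβ : α ≤ β) (hβ : β ≤ π) :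
    ∫ u in (0 : ℝ)..π, |g2 (1 / 2 + cos α * cos β) (-(cos α + cos β)) (1 / 2) u| =
      (1 / 2 + cos α * cos β) * (π + 2 * α - 2 * β) +
        (-(cos α + cos β)) * (2 * (sin α - sin β)) + (1 / 2) * (sin (2 * α) - sin (2 * β)) := by
  set p := 1 / 2 + cos α * cos β with hp
  set q := -(cos α + cos β) with hq
  have hc := g2_cont p q (1 / 2)
  have hi : ∀ a b : ℝ, IntervalIntegrable (fun u => |g2 p q (1 / 2) u|) volume a b :=
    fun a b => hc.abs.intervalIntegrable _ _
  rw [← intervalIntegral.integral_add_adjacent_intervals (hi 0 β) (hi β π),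
    ← intervalIntegral.integral_add_adjacent_intervals (hi 0 α) (hi α β)]
  have hmono : ∀ {s t : ℝ}, 0 ≤ s → s ≤ t → t ≤ π → cos t ≤ cos s := fun {s t} hs hst ht =>
    cos_le_cos_of_nonneg_of_le_pi hs ht hst
  rw [piece_pos (g2_der p q (1 / 2)) hc h0, piece_neg (g2_der p q (1 / 2)) hc hαβ,
    piece_pos (g2_der p q (1 / 2)) hc hβ]
  · simp only [sin_zero, mul_zero, sin_pi, sin_two_pi]; ring
  · intro u hu
    rw [hp, hq, g2_factor]
    have h1 := hmono (h0.trans hαβ) hu.1 hu.2
    have h2 := hmono h0 (hαβ.trans hu.1) hu.2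
    exact mul_nonneg_of_nonpos_of_nonpos (by linarith) (by linarith)
  · intro u hu
    rw [hp, hq, g2_factor]
    have h1 := hmono h0 hu.1 (hu.2.trans hβ)
    have h2 := hmono (h0.trans hu.1) hu.2 hβ
    exact mul_nonpos_of_nonpos_of_nonneg (by linarith) (by linarith)
  · intro u hu
    rw [hp, hq, g2_factor]
    have h1 := hmono hu.1 hu.2 (hαβ.trans hβ)
    have h2 := hmono hu.1 (hu.2.trans hαβ) hβ
    exact mul_nonneg (by linarith) (by linarith)

theorem fourier_pair (n : ℤ) (x : ℝ) :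
    (fourier n (x : UnitAddCircle) : ℂ) + fourier (-n) (x : UnitAddCircle) =
      ((2 * cos (2 * π * n * x) : ℝ) : ℂ) := by
  rw [fourier_coe_apply, fourier_coe_apply]
  push_cast
  rw [Complex.two_cos]
  congr 2
  · ring
  · ring

end R243.TM
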