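import Mathlib
import Pool.Agent.R243.TM.Four

/-! The two families of Toeplitz matrices. -/

namespace R243.TM

open MeasureTheory AddCircle Real

/-- `A` is a self-adjoint Toeplitz matrix of size `N+1`. -/
def IsSAToeplitz {N : ℕ} (A : Matrix (Fin (N + 1)) (Fin (N + 1)) ℂ) : Prop :=
  ∃ a : ℤ → ℂ, (∀ n, a (-n) = (starRingEnd ℂ) (a n)) ∧
    ∀ j k : Fin (N + 1), A j k = a (((j : ℕ) : ℤ) - ((k : ℕ) : ℤ))

/-- The set `G_A` of bounded functions on the circle whose Fourier coefficients `f^(j-k)`,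
`0 ≤ j, k ≤ N`, are the entries `A j k`. -/
def GA {N : ℕ} (A : Matrix (Fin (N + 1)) (Fin (N + 1)) ℂ) : Set (UnitAddCircle → ℂ) :=
  {f | MemLp f ⊤ haarAddCircle ∧
    ∀ j k : Fin (N + 1), fourierCoeff f (((j : ℕ) : ℤ) - ((k : ℕ) : ℤ)) = A j k}

/-- `c_A`, the infimum of the sup norms of the members of `G_A`. -/
noncomputable def cA {N : ℕ} (A : Matrix (Fin (N + 1)) (Fin (N + 1)) ℂ) : ENNReal :=
  ⨅ f ∈ GA A, eLpNorm f ⊤ haarAddCircle

/-- the spectral norm of `A` -/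
noncomputable def opNorm {N : ℕ} (A : Matrix (Fin (N + 1)) (Fin (N + 1)) ℂ) : ℝ :=
  ‖Matrix.toEuclideanCLM (n := Fin (N + 1)) (𝕜 := ℂ) A‖

/-- `c_N`, the supremum of the ratios `c_A / ‖A‖` over nonzero self-adjoint Toeplitz matrices. -/
noncomputable def cN (N : ℕ) : ENNReal :=
  ⨆ A ∈ {A : Matrix (Fin (N + 1)) (Fin (N + 1)) ℂ | IsSAToeplitz A ∧ A ≠ 0},
    cA A / ENNReal.ofReal (opNorm A)

theorem crit {N : ℕ} {A : Matrix (Fin (N + 1)) (Fin (N + 1)) ℂ} (hA : IsSAToeplitz A)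
    (hA0 : A ≠ 0) {κ : ℝ} (hκ : 0 < κ) (hκ2 : π / 2 * κ < 1)
    (hn : ∀ x : Fin (N + 1) → ℂ, ∑ j, ‖∑ k, A j k * x k‖ ^ 2 ≤ κ ^ 2 * ∑ j, ‖x j‖ ^ 2)
    (hd : ∀ f ∈ GA A, 1 ≤ eLpNorm f ⊤ haarAddCircle) :
    ENNReal.ofReal (π / 2) < cN N := by
  have hop : opNorm A ≤ κ := by
    unfold opNorm
    apply ContinuousLinearMap.opNorm_le_bound _ hκ.le
    intro x
    apply le_of_sq_le_sq _ (by positivity)
    rw [mul_pow, EuclideanSpace.norm_sq_eq, EuclideanSpace.norm_sq_eq]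
    exact hn x
  have h1 : ENNReal.ofReal (π / 2) < ENNReal.ofReal (1 / κ) := by
    rw [ENNReal.ofReal_lt_ofReal_iff (by positivity), lt_div_iff₀ hκ]
    exact hκ2
  refine lt_of_lt_of_le h1 ?_
  have h2 : ENNReal.ofReal (1 / κ) ≤ 1 / ENNReal.ofReal (opNorm A) := by
    rw [ENNReal.ofReal_div_of_pos hκ, ENNReal.ofReal_one]
    exact ENNReal.div_le_div_left (ENNReal.ofReal_le_ofReal hop) _
  refine h2.trans ?_
  have h3 : 1 / ENNReal.ofReal (opNorm A) ≤ cA A / ENNReal.ofReal (opNorm A) := by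
    apply ENNReal.div_le_div_right
    exact le_iInf₂ hd
  refine h3.trans ?_
  exact le_iSup₂_of_le A ⟨hA, hA0⟩ le_rfl

theorem coeff_int {f : UnitAddCircle → ℂ} (hf : MemLp f ⊤ haarAddCircle) (n : ℤ) :
    Integrable (fun t => fourier n t * f t) haarAddCircle := by
  have : Integrable f haarAddCircle := hf.integrable le_top
  exact this.fourier_smul n

theorem coeff_eq (f : UnitAddCircle → ℂ) (n : ℤ) :
    ∫ t, fourier n t * f t ∂haarAddCircle = fourierCoeff f (-n) := by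
  unfold fourierCoeff
  simp only [neg_neg, smul_eq_mul]

section caseA

variable (α β : ℝ)

noncomputable def pA : ℝ := 1 / 2 + cos α * cos β
noncomputable def qA : ℝ := -(cos α + cos β)
noncomputable def S0 : ℝ := (2 / π) * (α - β + π / 2)
noncomputable def S1 : ℝ := (2 / π) * (sin α - sin β)
noncomputable def S2 : ℝ := (2 / π) * ((sin (2 * α) - sin (2 * β)) / 2)

theorem dualA {α β : ℝ} (h0 : 0 ≤ α) (hαβ : α ≤ β) (hβ : β ≤ π) {m N : ℕ} (hm : 0 < m)
    (hmN : 2 * m ≤ N) (hV : 0 < pA α β * S0 α β + qA α β * S1 α β + (1 / 2) * S2 α β)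
    {A : Matrix (Fin (N + 1)) (Fin (N + 1)) ℂ}
    (hA : ∀ j k : Fin (N + 1), A j k =
      ((b3 (S0 α β) (S1 α β) (S2 α β) m (((j : ℕ) : ℤ) - ((k : ℕ) : ℤ)) : ℝ) : ℂ)) :
    ∀ f ∈ GA A, 1 ≤ eLpNorm f ⊤ haarAddCircle := by
  rintro f ⟨hf, hcoef⟩
  set p := pA α β with hp
  set q := qA α β with hq
  set s0 := S0 α β with hs0
  set s1 := S1 α β with hs1
  set s2 := S2 α β with hs2
  have c0 : fourierCoeff f 0 = (s0 : ℂ) := by
    have := hcoef 0 0
    rw [hA] at this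
    simpa [b3_zero] using this
  have c1 : fourierCoeff f m = (s1 : ℂ) := by
    have := hcoef ⟨m, by omega⟩ 0
    rw [hA] at this
    simpa [b3_m hm] using this
  have c1' : fourierCoeff f (-m) = (s1 : ℂ) := by
    have := hcoef 0 ⟨m, by omega⟩
    rw [hA] at this
    simpa [b3_neg, b3_m hm] using this
  have c2 : fourierCoeff f (2 * m) = (s2 : ℂ) := by
    have := hcoef ⟨2 * m, by omega⟩ 0
    rw [hA] at this
    simpa [b3_2m hm] using this
  have c2' : fourierCoeff f (-(2 * m)) = (s2 : ℂ) := by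
    have := hcoef 0 ⟨2 * m, by omega⟩
    rw [hA] at this
    simpa [b3_neg, b3_2m hm] using this
  set G : UnitAddCircle → ℂ := fun t => (p : ℂ) * fourier 0 t +
    (q / 2 : ℂ) * (fourier (m : ℤ) t + fourier (-(m : ℤ)) t) +
    (1 / 4 : ℂ) * (fourier (2 * (m : ℤ)) t + fourier (-(2 * (m : ℤ))) t) with hG
  have hGc : Continuous G := by rw [hG]; fun_prop
  have hGx : ∀ x : ℝ, ‖G (x : UnitAddCircle)‖ = |g2 p q (1 / 2) (2 * π * m * x)| := by
    intro x
    have : G (x : UnitAddCircle) = ((g2 p q (1 / 2) (2 * π * m * x) : ℝ) : ℂ) := by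
      simp only [hG]
      rw [fourier_pair, fourier_pair, fourier_zero]
      unfold g2
      have e1 : 2 * π * ((2 * (m : ℤ) : ℤ) : ℝ) * x = 2 * (2 * π * m * x) := by push_cast; ring
      have e2 : 2 * π * (((m : ℤ) : ℤ) : ℝ) * x = 2 * π * m * x := by push_cast; ring
      rw [e1, e2]
      push_cast
      ring
    rw [this, Complex.norm_real, Real.norm_eq_abs]
  have hint := int_circle (g := g2 p q (1 / 2)) (g2_cont _ _ _) (by
    intro x
    unfold g2
    rw [cos_add_two_pi, show 2 * (x + 2 * π) = 2 * x + 2 * π + 2 * π by ring, cos_add_two_pi,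
      cos_add_two_pi]) (by
    intro x
    unfold g2
    rw [mul_neg, cos_neg, cos_neg]) hm hGx
  apply dual hf hGc hV (le_of_eq ?_) ?_
  · rw [hint, hp, hq, pA, qA, int_g2 h0 hαβ hβ, ← pA, ← qA, ← hp, ← hq, hs0, hs1, hs2, S0, S1, S2]
    have := Real.pi_ne_zero
    field_simp
    ring
  · have i0 := coeff_int hf 0
    have i1 := coeff_int hf (m : ℤ)
    have i1' := coeff_int hf (-(m : ℤ))
    have i2 := coeff_int hf (2 * (m : ℤ))
    have i2' := coeff_int hf (-(2 * (m : ℤ)))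
    have e1 : (fun t => G t * f t) = fun t => (p : ℂ) * (fourier 0 t * f t) +
        ((q / 2 : ℂ) * ((fourier (m : ℤ) t * f t) + (fourier (-(m : ℤ)) t * f t)) +
        (1 / 4 : ℂ) * ((fourier (2 * (m : ℤ)) t * f t) + (fourier (-(2 * (m : ℤ))) t * f t))) := by
      funext t; simp only [hG]; ring
    have I0 : Integrable (fun t => (p : ℂ) * (fourier 0 t * f t)) haarAddCircle := i0.const_mul _
    have I1 : Integrable (fun t => (q / 2 : ℂ) * ((fourier (m : ℤ) t * f t) +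
      (fourier (-(m : ℤ)) t * f t))) haarAddCircle := (i1.add i1').const_mul _
    have I2 : Integrable (fun t => (1 / 4 : ℂ) * ((fourier (2 * (m : ℤ)) t * f t) +
      (fourier (-(2 * (m : ℤ))) t * f t))) haarAddCircle := (i2.add i2').const_mul _
    have I12 : Integrable (fun t => (q / 2 : ℂ) * ((fourier (m : ℤ) t * f t) +
      (fourier (-(m : ℤ)) t * f t)) + (1 / 4 : ℂ) * ((fourier (2 * (m : ℤ)) t * f t) +
      (fourier (-(2 * (m : ℤ))) t * f t))) haarAddCircle := I1.add I2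
    rw [e1, integral_add I0 I12, integral_add I1 I2, integral_const_mul, integral_const_mul,
      integral_const_mul,
      integral_add i1 i1', integral_add i2 i2', coeff_eq, coeff_eq, coeff_eq, coeff_eq, coeff_eq,
      neg_zero, neg_neg, neg_neg, c0, c1, c1', c2, c2']
    push_cast
    ring

theorem sin21 : sin 0.21 ∈ Set.Icc (0.2084 : ℝ) 0.2085 := by
  have h := Real.sin_bound (x := 0.21) (by rw [abs_of_pos] <;> norm_num)
  rw [abs_of_pos (by norm_num : (0 : ℝ) < 0.21), abs_le] at h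
  constructor <;> norm_num at h ⊢ <;> linarith [h.1, h.2]

theorem sin42 : sin 0.42 ∈ Set.Icc (0.4075 : ℝ) 0.4078 := by
  have h := Real.sin_bound (x := 0.42) (by rw [abs_of_pos] <;> norm_num)
  rw [abs_of_pos (by norm_num : (0 : ℝ) < 0.42), abs_le] at h
  constructor <;> norm_num at h ⊢ <;> linarith [h.1, h.2]

theorem sqrt3 : √3 ∈ Set.Icc (1.73205 : ℝ) 1.73206 := by
  constructor
  · apply Real.le_sqrt_of_sq_le; norm_num
  · apply Real.sqrt_le_iff.mpr; norm_num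

theorem sqrt2 : √2 ∈ Set.Icc (1.41421 : ℝ) 1.41422 := by
  constructor
  · apply Real.le_sqrt_of_sq_le; norm_num
  · apply Real.sqrt_le_iff.mpr; norm_num

/-- scaling of the quadratic form bound -/
theorem quad_scale {s0 s1 s2 K c : ℝ} (h : ∀ u v w : ℝ,
    (s0 * u + s1 * v + s2 * w) ^ 2 + (s1 * u + s0 * v + s1 * w) ^ 2 +
      (s2 * u + s1 * v + s0 * w) ^ 2 ≤ K * (u ^ 2 + v ^ 2 + w ^ 2)) (u v w : ℝ) :
    (c * s0 * u + c * s1 * v + c * s2 * w) ^ 2 + (c * s1 * u + c * s0 * v + c * s1 * w) ^ 2 +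
      (c * s2 * u + c * s1 * v + c * s0 * w) ^ 2 ≤ (c ^ 2 * K) * (u ^ 2 + v ^ 2 + w ^ 2) := by
  have := mul_le_mul_of_nonneg_left (h u v w) (sq_nonneg c)
  nlinarith

theorem numA : ∀ u v w : ℝ,
    ((0.21 - π / 6) * u + (sin 0.21 - √3 / 2) * v + ((sin 0.42 + √3 / 2) / 2) * w) ^ 2 +
    ((sin 0.21 - √3 / 2) * u + (0.21 - π / 6) * v + (sin 0.21 - √3 / 2) * w) ^ 2 +
    (((sin 0.42 + √3 / 2) / 2) * u + (sin 0.21 - √3 / 2) * v + (0.21 - π / 6) * w) ^ 2 ≤
      0.9801 * (u ^ 2 + v ^ 2 + w ^ 2) := by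
  obtain ⟨a1, a2⟩ := sin21
  obtain ⟨b1, b2⟩ := sin42
  obtain ⟨c1, c2⟩ := sqrt3
  have d1 := Real.pi_gt_d6
  have d2 := Real.pi_lt_d6
  set s0 := 0.21 - π / 6 with hs0
  set s1 := sin 0.21 - √3 / 2 with hs1
  set s2 := (sin 0.42 + √3 / 2) / 2 with hs2
  have e0 : -0.3136 ≤ s0 := by rw [hs0]; norm_num at d2 ⊢; linarith
  have e0' : s0 ≤ -0.3135 := by rw [hs0]; norm_num at d1 ⊢; linarith
  have e1 : -0.6577 ≤ s1 := by rw [hs1]; norm_num at a1 c2 ⊢; linarith
  have e1' : s1 ≤ -0.6575 := by rw [hs1]; norm_num at a2 c1 ⊢; linarith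
  have e2 : 0.6367 ≤ s2 := by rw [hs2]; norm_num at b1 c1 ⊢; linarith
  have e2' : s2 ≤ 0.637 := by rw [hs2]; norm_num at b2 c2 ⊢; linarith
  have f1 : s0 ^ 2 ≤ 0.0984 := by norm_num at *; nlinarith
  have f2 : s1 ^ 2 ≤ 0.4326 := by norm_num at *; nlinarith
  have f3 : (s0 + s2) ^ 2 ≤ 0.1047 := by norm_num at *; nlinarith
  have f4 : (s0 - s2) ^ 2 ≤ 0.9801 := by norm_num at *; nlinarith
  have f5 : (2 * s0 + s2) ^ 2 ≤ 0.0001 := by norm_num at *; nlinarith
  apply quad3_real f4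
  · norm_num at *; linarith
  · have g1 : (2 * s1 * (2 * s0 + s2)) ^ 2 ≤ 4 * 0.4326 * 0.0001 := by
      have : (2 * s1 * (2 * s0 + s2)) ^ 2 = 4 * (s1 ^ 2 * (2 * s0 + s2) ^ 2) := by ring
      rw [this]
      have := mul_le_mul f2 f5 (sq_nonneg _) (by norm_num)
      linarith
    have g2 : (0.0202 : ℝ) ≤ 2 * (0.9801 - (s0 + s2) ^ 2 - 2 * s1 ^ 2) := by
      norm_num at *; linarith
    have g3 : (0.0165 : ℝ) ≤ 0.9801 - 2 * s1 ^ 2 - s0 ^ 2 := by norm_num at *; linarith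
    have g4 := mul_le_mul g2 g3 (by norm_num) (by linarith)
    refine le_trans g1 (le_trans ?_ g4)
    norm_num

theorem caseA {m N : ℕ} (hm : 0 < m) (h1 : 2 * m ≤ N) (h2 : N + 1 ≤ 3 * m) :
    ENNReal.ofReal (π / 2) < cN N := by
  set α : ℝ := 0.21 with hα
  set β : ℝ := 2 * π / 3 with hβ
  have hpi := Real.pi_pos
  have d1 := Real.pi_gt_d6
  have d2 := Real.pi_lt_d6
  obtain ⟨a1, a2⟩ := sin21
  obtain ⟨b1, b2⟩ := sin42
  obtain ⟨c1, c2⟩ := sqrt3
  have hsinβ : sin β = √3 / 2 := by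
    rw [hβ, show 2 * π / 3 = π - π / 3 by ring, sin_pi_sub, sin_pi_div_three]
  have hcosβ : cos β = -1 / 2 := by
    rw [hβ, show 2 * π / 3 = π - π / 3 by ring, cos_pi_sub, cos_pi_div_three]; ring
  have hsin2β : sin (2 * β) = -(√3 / 2) := by
    rw [sin_two_mul, hsinβ, hcosβ]; ring
  have hs0 : S0 α β = (2 / π) * (0.21 - π / 6) := by
    rw [S0, hα, hβ]; ring
  have hs1 : S1 α β = (2 / π) * (sin 0.21 - √3 / 2) := by
    rw [S1, hsinβ]
  have hs2 : S2 α β = (2 / π) * ((sin 0.42 + √3 / 2) / 2) := by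
    rw [S2, hsin2β, hα, show (2 * 0.21 : ℝ) = 0.42 by norm_num]; ring
  have hcosα : 0.97 ≤ cos α := by
    have := Real.one_sub_sq_div_two_le_cos (x := α)
    rw [hα] at this ⊢
    norm_num at this ⊢
    linarith
  have hcosα' : cos α ≤ 1 := cos_le_one α
  have hc : (0 : ℝ) < 2 / π := by positivity
  have hV : 0 < pA α β * S0 α β + qA α β * S1 α β + (1 / 2) * S2 α β := by
    rw [hs0, hs1, hs2, pA, qA, hcosβ]
    have e1 : (1 / 2 + cos α * (-1 / 2)) * (2 / π * (0.21 - π / 6)) +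
        -(cos α + -1 / 2) * (2 / π * (sin 0.21 - √3 / 2)) +
        1 / 2 * (2 / π * ((sin 0.42 + √3 / 2) / 2)) = (2 / π) *
        ((1 - cos α) / 2 * (0.21 - π / 6) + (cos α - 1 / 2) * (√3 / 2 - sin 0.21) +
          (sin 0.42 + √3 / 2) / 4) := by ring
    rw [e1]
    apply mul_pos hc
    have f1 : -0.01 ≤ (1 - cos α) / 2 * (0.21 - π / 6) := by
      have k1 : (1 - cos α) / 2 ≤ 0.015 := by norm_num at hcosα ⊢; linarith
      have k2 : 0 ≤ (1 - cos α) / 2 := div_nonneg (sub_nonneg.mpr hcosα') (by norm_num)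
      have k3 : -0.5 ≤ 0.21 - π / 6 := by norm_num at d2 ⊢; linarith
      norm_num at k1 k3 ⊢
      nlinarith
    have f2 : 0 ≤ (cos α - 1 / 2) * (√3 / 2 - sin 0.21) := by
      apply mul_nonneg
      · norm_num at hcosα ⊢; linarith
      · norm_num at a2 c1 ⊢; linarith
    norm_num at f1 b1 c1 ⊢
    linarith
  set A : Matrix (Fin (N + 1)) (Fin (N + 1)) ℂ := fun j k =>
    ((b3 (S0 α β) (S1 α β) (S2 α β) m (((j : ℕ) : ℤ) - ((k : ℕ) : ℤ)) : ℝ) : ℂ) with hA
  have hS0 : S0 α β ≠ 0 := by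
    rw [hs0]
    apply mul_ne_zero hc.ne'
    norm_num at d1 ⊢
    intro h
    linarith
  apply crit (A := A) (κ := 2 / π * 0.99)
  · refine ⟨fun n => ((b3 (S0 α β) (S1 α β) (S2 α β) m n : ℝ) : ℂ), ?_, fun j k => rfl⟩
    intro n
    simp only [b3_neg, Complex.conj_ofReal]
  · intro h
    have := congrFun (congrFun h 0) 0
    simp only [hA, sub_self, b3_zero, Matrix.zero_apply] at this
    exact hS0 (by exact_mod_cast this)
  · positivity
  · have : π / 2 * (2 / π * 0.99) = 0.99 := by field_simp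
    rw [this]; norm_num
  · intro x
    have hb := fin_bound (s0 := S0 α β) (s1 := S1 α β) (s2 := S2 α β) (K := (2 / π * 0.99) ^ 2) (by
      rw [hs0, hs1, hs2]
      have : (2 / π * 0.99) ^ 2 = (2 / π) ^ 2 * 0.9801 := by rw [mul_pow]; norm_num
      rw [this]
      exact quad_scale numA) h2 x
    exact hb
  · have hαβ : α ≤ β := by rw [hα, hβ]; norm_num at d1 ⊢; linarith
    have hβπ : β ≤ π := by rw [hβ]; linarith
    exact dualA (by rw [hα]; norm_num) hαβ hβπ hm h1 hV (fun j k => rfl)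

end caseA

end R243.TM
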