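import Mathlib
import Pool.Agent.R243.TM.Main

/-! The case `N = 3`. -/

namespace R243.TM

open MeasureTheory AddCircle Real

/-- coefficients at `±1, ±3` -/
noncomputable def b4 (s1 s3 : ℝ) (n : ℤ) : ℝ :=
  if n = 1 ∨ n = -1 then s1 else if n = 3 ∨ n = -3 then s3 else 0

theorem b4_neg {s1 s3 : ℝ} (n : ℤ) : b4 s1 s3 (-n) = b4 s1 s3 n := by
  unfold b4
  have e1 : (-n = 1 ∨ -n = -1) ↔ (n = 1 ∨ n = -1) := by omega
  have e2 : (-n = 3 ∨ -n = -3) ↔ (n = 3 ∨ n = -3) := by omega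
  simp only [e1, e2]

theorem quad2_real {s1 s3 K : ℝ} (h1 : 0 < K - 2 * s1 ^ 2)
    (h2 : (s1 * (s1 + s3)) ^ 2 ≤ (K - 2 * s1 ^ 2) * (K - s1 ^ 2 - s3 ^ 2)) (u v : ℝ) :
    (s1 * u + s3 * v) ^ 2 + (s1 * u + s1 * v) ^ 2 ≤ K * (u ^ 2 + v ^ 2) := by
  set α := K - 2 * s1 ^ 2 with hα
  set γ := K - s1 ^ 2 - s3 ^ 2 with hγ
  set β := s1 * (s1 + s3) with hβ
  have key : 0 ≤ α * u ^ 2 - 2 * β * (u * v) + γ * v ^ 2 := by
    have h4 : 0 ≤ α * (α * u ^ 2 - 2 * β * (u * v) + γ * v ^ 2) := by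
      have : α * (α * u ^ 2 - 2 * β * (u * v) + γ * v ^ 2) =
        (α * u - β * v) ^ 2 + (α * γ - β ^ 2) * v ^ 2 := by ring
      rw [this]
      have h5 : 0 ≤ α * γ - β ^ 2 := by linarith
      positivity
    exact nonneg_of_mul_nonneg_right h4 h1
  have e1 : K * (u ^ 2 + v ^ 2) - ((s1 * u + s3 * v) ^ 2 + (s1 * u + s1 * v) ^ 2) =
      α * u ^ 2 - 2 * β * (u * v) + γ * v ^ 2 := by
    rw [hα, hβ, hγ]; ring
  linarith

theorem quad2 {s1 s3 K : ℝ} (h : ∀ u v : ℝ,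
    (s1 * u + s3 * v) ^ 2 + (s1 * u + s1 * v) ^ 2 ≤ K * (u ^ 2 + v ^ 2)) (u v : ℂ) :
    ‖s1 * u + s3 * v‖ ^ 2 + ‖s1 * u + s1 * v‖ ^ 2 ≤ K * (‖u‖ ^ 2 + ‖v‖ ^ 2) := by
  have h1 := h u.re v.re
  have h2 := h u.im v.im
  simp only [norm_sq_re_im, Complex.add_re, Complex.add_im, Complex.re_ofReal_mul,
    Complex.im_ofReal_mul]
  linarith

theorem fin4_bound {s1 s3 K : ℝ} (h : ∀ u v : ℝ,
    (s1 * u + s3 * v) ^ 2 + (s1 * u + s1 * v) ^ 2 ≤ K * (u ^ 2 + v ^ 2)) (x : Fin (3 + 1) → ℂ) :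
    ∑ j : Fin (3 + 1), ‖∑ k : Fin (3 + 1),
      ((b4 s1 s3 (((j : ℕ) : ℤ) - ((k : ℕ) : ℤ)) : ℝ) : ℂ) * x k‖ ^ 2 ≤
      K * ∑ j : Fin (3 + 1), ‖x j‖ ^ 2 := by
  have e1 := quad2 h (x 1) (x 3)
  have e2 := quad2 h (x 2) (x 0)
  have key : ∀ y : Fin 4 → ℂ, ‖(s1 : ℂ) * y 1 + s3 * y 3‖ ^ 2 + ‖(s1 : ℂ) * y 1 + s1 * y 3‖ ^ 2 +
      (‖(s1 : ℂ) * y 2 + s3 * y 0‖ ^ 2 + ‖(s1 : ℂ) * y 2 + s1 * y 0‖ ^ 2) =
      ∑ j : Fin 4, ‖∑ k : Fin 4, ((b4 s1 s3 (((j : ℕ) : ℤ) - ((k : ℕ) : ℤ)) : ℝ) : ℂ) * y k‖ ^ 2 := by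
    intro y
    simp only [Fin.sum_univ_four]
    simp [b4]
    have f1 : (s3 : ℂ) * y 0 + s1 * y 2 = s1 * y 2 + s3 * y 0 := by ring
    have f2 : (s1 : ℂ) * y 0 + s1 * y 2 = s1 * y 2 + s1 * y 0 := by ring
    rw [f1, f2]
    ring
  have key2 : ∀ y : Fin 4 → ℂ, ∑ j : Fin 4, ‖y j‖ ^ 2 =
      ‖y 1‖ ^ 2 + ‖y 3‖ ^ 2 + (‖y 2‖ ^ 2 + ‖y 0‖ ^ 2) := by
    intro y
    rw [Fin.sum_univ_four]; ring
  refine le_trans (le_of_eq (key x).symm) ?_
  refine le_trans (add_le_add e1 e2) (le_of_eq ?_)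
  rw [← mul_add]
  congr 1
  exact (key2 x).symm

/-- the cosine polynomial -/
noncomputable def g3 (q r : ℝ) (u : ℝ) : ℝ := q * cos u + r * cos (3 * u)

theorem g3_cont (q r : ℝ) : Continuous (g3 q r) := by
  unfold g3; fun_prop

theorem g3_der (q r x : ℝ) :
    HasDerivAt (fun u => q * sin u + r / 3 * sin (3 * u)) (g3 q r x) x := by
  have h2 : HasDerivAt (fun u : ℝ => q * sin u) (q * cos x) x := (hasDerivAt_sin x).const_mul q
  have h3 : HasDerivAt (fun u : ℝ => r / 3 * sin (3 * u)) (r / 3 * (cos (3 * x) * 3)) x := by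
    have h4 : HasDerivAt (fun u : ℝ => 3 * u) 3 x := by
      simpa using (hasDerivAt_id x).const_mul (3 : ℝ)
    exact ((hasDerivAt_sin (3 * x)).comp x h4).const_mul (r / 3)
  exact (h2.add h3).congr_deriv (show _ = g3 q r x by unfold g3; ring)

theorem g3_factor (t u : ℝ) :
    g3 (3 / 4 - cos t ^ 2) (1 / 4) u = cos u * (cos u ^ 2 - cos t ^ 2) := by
  unfold g3
  rw [cos_three_mul]; ring

theorem int_g3 {t : ℝ} (h0 : 0 ≤ t) (ht : t ≤ π / 2) :
    ∫ u in (0 : ℝ)..π, |g3 (3 / 4 - cos t ^ 2) (1 / 4) u| =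
      (3 / 4 - cos t ^ 2) * (4 * sin t - 2) + (1 / 12) * (4 * sin (3 * t) + 2) := by
  set q := 3 / 4 - cos t ^ 2 with hq
  have hpi := Real.pi_pos
  have hc := g3_cont q (1 / 4)
  have hi : ∀ a b : ℝ, IntervalIntegrable (fun u => |g3 q (1 / 4) u|) volume a b :=
    fun a b => hc.abs.intervalIntegrable _ _
  rw [← intervalIntegral.integral_add_adjacent_intervals (hi 0 (π / 2)) (hi (π / 2) π),
    ← intervalIntegral.integral_add_adjacent_intervals (hi 0 t) (hi t (π / 2)),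
    ← intervalIntegral.integral_add_adjacent_intervals (hi (π / 2) (π - t)) (hi (π - t) π)]
  have hmono : ∀ {s t : ℝ}, 0 ≤ s → s ≤ t → t ≤ π → cos t ≤ cos s := fun {s t} hs hst ht =>
    cos_le_cos_of_nonneg_of_le_pi hs ht hst
  have hct : 0 ≤ cos t := cos_nonneg_of_mem_Icc ⟨by linarith, by linarith⟩
  rw [piece_pos (g3_der q (1 / 4)) hc h0, piece_neg (g3_der q (1 / 4)) hc ht,
    piece_pos (g3_der q (1 / 4)) hc (by linarith : π / 2 ≤ π - t),
    piece_neg (g3_der q (1 / 4)) hc (by linarith : π - t ≤ π)]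
  · have e1 : sin (3 * (π / 2)) = -1 := by
      rw [show 3 * (π / 2) = π / 2 + π by ring, sin_add_pi, sin_pi_div_two]
    have e2 : sin (3 * π) = 0 := by
      rw [show 3 * π = π + 2 * π by ring, sin_add_two_pi, sin_pi]
    have e3 : sin (3 * (π - t)) = sin (3 * t) := by
      rw [show 3 * (π - t) = (π - 3 * t) + 2 * π by ring, sin_add_two_pi, sin_pi_sub]
    simp only [sin_zero, mul_zero, sin_pi, e1, e2, e3, sin_pi_div_two, sin_pi_sub]; ring
  · intro u hu
    rw [hq, g3_factor]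
    have h1 : cos u ≤ -cos t := by
      rw [← cos_pi_sub]
      exact hmono (by linarith) hu.1 hu.2
    apply mul_nonpos_of_nonpos_of_nonneg (by linarith)
    nlinarith
  · intro u hu
    rw [hq, g3_factor]
    have h1 : -cos t ≤ cos u := by
      rw [← cos_pi_sub]
      exact hmono (by linarith [hu.1]) hu.2 (by linarith)
    have h2 : cos u ≤ 0 := by
      have := hmono (by linarith) hu.1 (by linarith [hu.2])
      rwa [cos_pi_div_two] at this
    apply mul_nonneg_of_nonpos_of_nonpos h2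
    nlinarith
  · intro u hu
    rw [hq, g3_factor]
    have h1 : cos u ≤ cos t := hmono h0 hu.1 (by linarith [hu.2])
    have h2 : 0 ≤ cos u := by
      have := hmono (by linarith [hu.1]) hu.2 (by linarith)
      rwa [cos_pi_div_two] at this
    apply mul_nonpos_of_nonneg_of_nonpos h2
    nlinarith
  · intro u hu
    rw [hq, g3_factor]
    have h1 : cos t ≤ cos u := hmono hu.1 hu.2 (by linarith)
    apply mul_nonneg (by linarith)
    nlinarith

theorem case3 : ENNReal.ofReal (π / 2) < cN 3 := by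
  set t : ℝ := π / 12 with ht
  have hpi := Real.pi_pos
  have hc0 : (0 : ℝ) < 2 / π := by positivity
  obtain ⟨c1, c2⟩ := sqrt3
  obtain ⟨d1, d2⟩ := sqrt2
  have hsint : sin t = √2 * (√3 - 1) / 4 := by
    rw [ht, show π / 12 = π / 3 - π / 4 by ring, sin_sub, sin_pi_div_three, cos_pi_div_four,
      cos_pi_div_three, sin_pi_div_four]; ring
  have hsin3t : sin (3 * t) = √2 / 2 := by
    rw [ht, show 3 * (π / 12) = π / 4 by ring, sin_pi_div_four]
  have hcost : cos t ^ 2 = 1 / 2 + √3 / 4 := by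
    have : cos (2 * t) = √3 / 2 := by
      rw [ht, show 2 * (π / 12) = π / 6 by ring, cos_pi_div_six]
    rw [cos_two_mul] at this
    linarith
  -- numerical bounds
  have b1 : 0.2588 ≤ sin t := by
    rw [hsint]
    have : 1.41421 * 0.73205 ≤ √2 * (√3 - 1) :=
      mul_le_mul d1 (by norm_num at c1 ⊢; linarith) (by norm_num) (by positivity)
    norm_num at this ⊢; linarith
  have b2 : sin t ≤ 0.2589 := by
    rw [hsint]
    have : √2 * (√3 - 1) ≤ 1.41422 * 0.73206 :=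
      mul_le_mul d2 (by norm_num at c2 ⊢; linarith) (sub_nonneg.mpr (le_trans (by norm_num) c1))
        (by norm_num)
    norm_num at this ⊢; linarith
  set r1 : ℝ := 2 * sin t - 1 with hr1
  set r3 : ℝ := (2 * sin (3 * t) + 1) / 3 with hr3
  have e1 : -0.4824 ≤ r1 := by rw [hr1]; norm_num at b1 ⊢; linarith
  have e1' : r1 ≤ -0.4822 := by rw [hr1]; norm_num at b2 ⊢; linarith
  have e3 : 0.8047 ≤ r3 := by rw [hr3, hsin3t]; norm_num at d1 ⊢; linarith
  have e3' : r3 ≤ 0.8048 := by rw [hr3, hsin3t]; norm_num at d2 ⊢; linarith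
  have hquad : ∀ u v : ℝ, (r1 * u + r3 * v) ^ 2 + (r1 * u + r1 * v) ^ 2 ≤
      0.9409 * (u ^ 2 + v ^ 2) := by
    have f1 : r1 ^ 2 ≤ 0.2328 := by norm_num at *; nlinarith
    have f3 : r3 ^ 2 ≤ 0.6478 := by norm_num at *; nlinarith
    have f4 : (r1 + r3) ^ 2 ≤ 0.1041 := by norm_num at *; nlinarith
    apply quad2_real
    · norm_num at *; linarith
    · have g1 : (r1 * (r1 + r3)) ^ 2 ≤ 0.2328 * 0.1041 := by
        rw [mul_pow]
        exact mul_le_mul f1 f4 (sq_nonneg _) (by norm_num)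
      have g2 : (0.4753 : ℝ) ≤ 0.9409 - 2 * r1 ^ 2 := by norm_num at *; linarith
      have g3 : (0.0603 : ℝ) ≤ 0.9409 - r1 ^ 2 - r3 ^ 2 := by norm_num at *; linarith
      have g4 := mul_le_mul g2 g3 (by norm_num) (by linarith)
      refine le_trans g1 (le_trans ?_ g4)
      norm_num
  set s1 : ℝ := 2 / π * r1 with hs1
  set s3 : ℝ := 2 / π * r3 with hs3
  have hquad' : ∀ u v : ℝ, (s1 * u + s3 * v) ^ 2 + (s1 * u + s1 * v) ^ 2 ≤
      (2 / π * 0.97) ^ 2 * (u ^ 2 + v ^ 2) := by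
    intro u v
    have h1 := mul_le_mul_of_nonneg_left (hquad u v) (sq_nonneg (2 / π))
    have h2 : (s1 * u + s3 * v) ^ 2 + (s1 * u + s1 * v) ^ 2 =
      (2 / π) ^ 2 * ((r1 * u + r3 * v) ^ 2 + (r1 * u + r1 * v) ^ 2) := by rw [hs1, hs3]; ring
    rw [h2]
    refine h1.trans (le_of_eq ?_)
    rw [mul_pow]; norm_num; ring
  set A : Matrix (Fin (3 + 1)) (Fin (3 + 1)) ℂ := fun j k =>
    ((b4 s1 s3 (((j : ℕ) : ℤ) - ((k : ℕ) : ℤ)) : ℝ) : ℂ) with hA
  have hs1ne : s1 < 0 := by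
    rw [hs1]
    apply mul_neg_of_pos_of_neg hc0
    norm_num at e1' ⊢; linarith
  have hs3pos : 0 < s3 := by
    rw [hs3]
    apply mul_pos hc0
    norm_num at e3 ⊢; linarith
  apply crit (A := A) (κ := 2 / π * 0.97)
  · refine ⟨fun n => ((b4 s1 s3 n : ℝ) : ℂ), ?_, fun j k => rfl⟩
    intro n
    simp only [b4_neg, Complex.conj_ofReal]
  · intro h
    have := congrFun (congrFun h 1) 0
    simp only [hA, Matrix.zero_apply] at this
    have h2 : b4 s1 s3 ((((1 : Fin (3 + 1)) : ℕ) : ℤ) - (((0 : Fin (3 + 1)) : ℕ) : ℤ)) = s1 := by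
      simp [b4]
    rw [h2] at this
    exact hs1ne.ne (by exact_mod_cast this)
  · positivity
  · have : π / 2 * (2 / π * 0.97) = 0.97 := by field_simp
    rw [this]; norm_num
  · intro x
    exact fin4_bound hquad' x
  · rintro f ⟨hf, hcoef⟩
    have k1 : fourierCoeff f 1 = (s1 : ℂ) := by
      have := hcoef 1 0
      simpa [hA, b4] using this
    have k1' : fourierCoeff f (-1) = (s1 : ℂ) := by
      have := hcoef 0 1
      simpa [hA, b4] using this
    have k3 : fourierCoeff f 3 = (s3 : ℂ) := by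
      have := hcoef 3 0
      simpa [hA, b4] using this
    have k3' : fourierCoeff f (-3) = (s3 : ℂ) := by
      have := hcoef 0 3
      simpa [hA, b4] using this
    set q : ℝ := 3 / 4 - cos t ^ 2 with hq
    have hqneg : q < 0 := by rw [hq, hcost]; norm_num at c1 ⊢; linarith
    set G : UnitAddCircle → ℂ := fun t =>
      (q / 2 : ℂ) * (fourier (1 : ℤ) t + fourier (-(1 : ℤ)) t) +
      (1 / 8 : ℂ) * (fourier (3 : ℤ) t + fourier (-(3 : ℤ)) t) with hG
    have hGc : Continuous G := by rw [hG]; fun_prop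
    have hGx : ∀ x : ℝ, ‖G (x : UnitAddCircle)‖ = |g3 q (1 / 4) (2 * π * ((1 : ℕ) : ℝ) * x)| := by
      intro x
      have : G (x : UnitAddCircle) = ((g3 q (1 / 4) (2 * π * ((1 : ℕ) : ℝ) * x) : ℝ) : ℂ) := by
        simp only [hG]
        rw [fourier_pair, fourier_pair]
        unfold g3
        have e1 : 2 * π * ((3 : ℤ) : ℝ) * x = 3 * (2 * π * ((1 : ℕ) : ℝ) * x) := by
          push_cast; ring
        have e2 : 2 * π * ((1 : ℤ) : ℝ) * x = 2 * π * ((1 : ℕ) : ℝ) * x := by push_cast; ring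
        rw [e1, e2]
        push_cast
        ring
      rw [this, Complex.norm_real, Real.norm_eq_abs]
    have hint := int_circle (g := g3 q (1 / 4)) (g3_cont _ _) (by
      intro x
      unfold g3
      rw [cos_add_two_pi, show 3 * (x + 2 * π) = 3 * x + 2 * π + 2 * π + 2 * π by ring,
        cos_add_two_pi, cos_add_two_pi, cos_add_two_pi]) (by
      intro x
      unfold g3
      rw [mul_neg, cos_neg, cos_neg]) one_pos hGx
    have hV : 0 < q * s1 + (1 / 4) * s3 := by nlinarith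
    apply dual hf hGc hV (le_of_eq ?_) ?_
    · rw [hint, hq, int_g3 (by rw [ht]; positivity) (by rw [ht]; linarith), ← hq, hs1, hs3, hr1,
        hr3]
      have := Real.pi_ne_zero
      field_simp
      ring
    · have i1 := coeff_int hf 1
      have i1' := coeff_int hf (-1)
      have i3 := coeff_int hf 3
      have i3' := coeff_int hf (-3)
      have e1 : (fun t => G t * f t) = fun t =>
          (q / 2 : ℂ) * ((fourier (1 : ℤ) t * f t) + (fourier (-(1 : ℤ)) t * f t)) +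
          (1 / 8 : ℂ) * ((fourier (3 : ℤ) t * f t) + (fourier (-(3 : ℤ)) t * f t)) := by
        funext t; simp only [hG]; ring
      have I1 : Integrable (fun t => (q / 2 : ℂ) * ((fourier (1 : ℤ) t * f t) +
        (fourier (-(1 : ℤ)) t * f t))) haarAddCircle := (i1.add i1').const_mul _
      have I3 : Integrable (fun t => (1 / 8 : ℂ) * ((fourier (3 : ℤ) t * f t) +
        (fourier (-(3 : ℤ)) t * f t))) haarAddCircle := (i3.add i3').const_mul _
      rw [e1, integral_add I1 I3, integral_const_mul, integral_const_mul,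
        integral_add i1 i1', integral_add i3 i3', coeff_eq, coeff_eq, coeff_eq, coeff_eq,
        neg_neg, neg_neg, k1, k1', k3, k3']
      push_cast
      ring

theorem main {N : ℕ} (hN : 2 ≤ N) : ENNReal.ofReal (π / 2) < cN N := by
  by_cases h3 : N = 3
  · rw [h3]; exact case3
  · apply caseA (m := N / 2)
    · omega
    · omega
    · omega

end R243.TM
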